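import Pool.Agent.Helper285.Lines.Main

/-!
# MP_757c6b_co: lines among `m` points of `F_3^n`: the smallest dimension, a recursion and a sharp
# bound

Let `M m n` be the maximum number of lines in a set of `m` points of `F_3^n`.

* `M m n = M m ⌈log_3 m⌉` for all `m ≥ 1` and `n ≥ ⌈log_3 m⌉` (the question Q1).
* If `0 ≤ e ≤ (19/50) 3^d` and `n > d` then `M (3^d + e) n` is `M (3^d) d` plus the maximum of
  `p q + M p d + M q d` over all `p + q = e`: an optimal set consists of a full `d`-dimensional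
  subspace and optimal sets of `p` and `q` points in its two translates in one more dimension.
* For `e ≤ 3^d / 2` and every `n`: `6 M (3^d + e) n ≤ 9^d + 2 e^2 - 3^d - e`, with equality for
  `e = 2 * 3^j`, `j + 2 ≤ d < n`.
-/

namespace Pool.Agent.Results.MP_757c6b_co.LinesRecursion

open Finset

/-! ### The notions in the statement -/

/-- A line of `F_3^n`: a set `{x, x + v, x + 2 v}` with `v ≠ 0`. -/
def IsLine {n : ℕ} (l : Finset (Fin n → ZMod 3)) : Prop :=
  ∃ x v : Fin n → ZMod 3, v ≠ 0 ∧ l = {x, x + v, x + 2 • v}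

open Classical in
/-- `L S` is the number of lines contained in `S`. -/
noncomputable def L {n : ℕ} (S : Finset (Fin n → ZMod 3)) : ℕ :=
  (S.powerset.filter (fun l => IsLine l)).card

/-- `M m n` is the maximum of `L S` over the sets `S` of `m` points of `F_3^n`. -/
noncomputable def M (m n : ℕ) : ℕ :=
  ((univ : Finset (Fin n → ZMod 3)).powersetCard m).sup L

/-! ### Lines and ordered pairs -/

open Pool.Agent.Helper285.Lines (T F)

theorem three_zero_fun {n : ℕ} (x : Fin n → ZMod 3) : x + x + x = 0 := by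
  funext i
  have : ∀ z : ZMod 3, z + z + z = 0 := by decide
  exact this (x i)

open Classical in
theorem fiber_line {n : ℕ} (a v : Fin n → ZMod 3) (_hv : v ≠ 0)
    (p : (Fin n → ZMod 3) × (Fin n → ZMod 3)) (hp : p ∈ ({a, a + v, a + 2 • v} : Finset (Fin n → ZMod 3)).offDiag) :
    ({p.1, p.2, -(p.1 + p.2)} : Finset (Fin n → ZMod 3)) = {a, a + v, a + 2 • v} := by
  obtain ⟨x, y⟩ := p
  rw [mem_offDiag] at hp
  obtain ⟨h1, h2, h3⟩ := hp
  simp only at h1 h2 h3
  simp only [mem_insert, mem_singleton] at h1 h2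
  have ha := three_zero_fun a
  have hvv := three_zero_fun v
  have e1 : -(a + (a + v)) = a + 2 • v := by
    linear_combination -ha - hvv
  have e2 : -(a + (a + 2 • v)) = a + v := by
    linear_combination -ha - hvv
  have e3 : -((a + v) + (a + 2 • v)) = a := by
    linear_combination -ha - hvv
  have e1' : -((a + v) + a) = a + 2 • v := by
    linear_combination -ha - hvv
  have e2' : -((a + 2 • v) + a) = a + v := by
    linear_combination -ha - hvv
  have e3' : -((a + 2 • v) + (a + v)) = a := by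
    linear_combination -ha - hvv
  rcases h1 with rfl | rfl | rfl <;> rcases h2 with rfl | rfl | rfl
  · exact absurd rfl h3
  · rw [e1]
  · rw [e2]
    ext z; simp only [mem_insert, mem_singleton]; tauto
  · rw [e1']
    ext z; simp only [mem_insert, mem_singleton]; tauto
  · exact absurd rfl h3
  · rw [e3]
    ext z; simp only [mem_insert, mem_singleton]; tauto
  · rw [e2']
    ext z; simp only [mem_insert, mem_singleton]; tauto
  · rw [e3']
    ext z; simp only [mem_insert, mem_singleton]; tauto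
  · exact absurd rfl h3

open Classical in
theorem card_line {n : ℕ} (a v : Fin n → ZMod 3) (hv : v ≠ 0) :
    ({a, a + v, a + 2 • v} : Finset (Fin n → ZMod 3)).card = 3 := by
  have hvv := three_zero_fun v
  rw [card_eq_three]
  refine ⟨a, a + v, a + 2 • v, ?_, ?_, ?_, rfl⟩
  · intro h
    apply hv
    linear_combination -h
  · intro h
    apply hv
    linear_combination h + hvv
  · intro h
    apply hv
    linear_combination -h

theorem T_eq_L {n : ℕ} (S : Finset (Fin n → ZMod 3)) : T S = S.card + 6 * L S := by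
  classical
  obtain ⟨P, hP, hT⟩ : ∃ P : Finset ((Fin n → ZMod 3) × (Fin n → ZMod 3)),
      (∀ p, p ∈ P ↔ (p.1 ∈ S ∧ p.2 ∈ S) ∧ -(p.1 + p.2) ∈ S) ∧ T S = P.card := by
    refine ⟨_, ?_, rfl⟩
    intro p
    refine (@Finset.mem_filter _ _ (_) _ _).trans ?_
    rw [mem_product]
  obtain ⟨Q, hQ, hL⟩ : ∃ Q : Finset (Finset (Fin n → ZMod 3)),
      (∀ l, l ∈ Q ↔ l ⊆ S ∧ IsLine l) ∧ L S = Q.card := by
    refine ⟨_, ?_, rfl⟩
    intro l
    refine (@Finset.mem_filter _ _ (_) _ _).trans ?_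
    rw [mem_powerset]
  rw [hT, hL, ← card_filter_add_card_filter_not (s := P) (fun p => p.1 = p.2)]
  congr 1
  · symm
    apply card_bij (fun x _ => (x, x))
    · intro x hx
      rw [mem_filter, hP]
      have : -(x + x) = x := by linear_combination -(three_zero_fun x)
      refine ⟨⟨⟨hx, hx⟩, ?_⟩, rfl⟩
      simp only
      rw [this]
      exact hx
    · intro x _ y _ h
      exact (Prod.mk.inj h).1
    · rintro ⟨x, y⟩ h
      rw [mem_filter, hP] at h
      exact ⟨x, h.1.1.1, by rw [show y = x from h.2.symm]⟩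
  · have hmaps : ∀ p ∈ P.filter (fun p => ¬ p.1 = p.2),
        ({p.1, p.2, -(p.1 + p.2)} : Finset (Fin n → ZMod 3)) ∈ Q := by
      rintro ⟨x, y⟩ h
      rw [mem_filter, hP] at h
      obtain ⟨⟨⟨hx, hy⟩, hz⟩, hne⟩ := h
      simp only at hx hy hz hne ⊢
      rw [hQ]
      constructor
      · intro w hw
        simp only [mem_insert, mem_singleton] at hw
        rcases hw with rfl | rfl | rfl
        · exact hx
        · exact hy
        · exact hz
      · refine ⟨x, y - x, sub_ne_zero.mpr (Ne.symm hne), ?_⟩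
        have e1 : x + (y - x) = y := by ring
        have e2 : x + 2 • (y - x) = -(x + y) := by linear_combination three_zero_fun y
        rw [e1, e2]
    rw [card_eq_sum_card_fiberwise hmaps]
    have hfib : ∀ l ∈ Q, ((P.filter (fun p => ¬ p.1 = p.2)).filter
          (fun p => ({p.1, p.2, -(p.1 + p.2)} : Finset (Fin n → ZMod 3)) = l)).card = 6 := by
      intro l hl
      rw [hQ] at hl
      obtain ⟨hlS, a, v, hv, rfl⟩ := hl
      have e : ((P.filter (fun p => ¬ p.1 = p.2)).filter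
          (fun p => ({p.1, p.2, -(p.1 + p.2)} : Finset (Fin n → ZMod 3)) = {a, a + v, a + 2 • v}))
          = ({a, a + v, a + 2 • v} : Finset (Fin n → ZMod 3)).offDiag := by
        ext p
        constructor
        · intro hp
          rw [mem_filter, mem_filter] at hp
          rw [mem_offDiag, ← hp.2]
          exact ⟨mem_insert_self _ _, mem_insert_of_mem (mem_insert_self _ _), hp.1.2⟩
        · intro hp
          have h1 := fiber_line a v hv p hp
          rw [mem_offDiag] at hp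
          rw [mem_filter, mem_filter, hP]
          refine ⟨⟨⟨⟨hlS hp.1, hlS hp.2.1⟩, ?_⟩, hp.2.2⟩, h1⟩
          apply hlS
          rw [← h1]
          exact mem_insert_of_mem (mem_insert_of_mem (mem_singleton_self _))
      rw [e, offDiag_card, card_line a v hv]
    rw [sum_congr rfl hfib, sum_const, smul_eq_mul, mul_comm]

theorem F_eq_M {n m : ℕ} (hm : m ≤ 3 ^ n) : F n m = m + 6 * M m n := by
  have hne : (powersetCard m (univ : Finset (Fin n → ZMod 3))).Nonempty := by
    rw [powersetCard_nonempty, card_univ]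
    simpa [ZMod.card] using hm
  apply le_antisymm
  · obtain ⟨S, hS, hT⟩ := Pool.Agent.Helper285.Lines.exists_F hm
    rw [← hT, T_eq_L, hS]
    have : L S ≤ M m n := by
      unfold M
      exact le_sup (f := L) (mem_powersetCard.mpr ⟨subset_univ S, hS⟩)
    omega
  · obtain ⟨S, hS, hL⟩ := exists_mem_eq_sup _ hne L
    have hc : S.card = m := (mem_powersetCard.mp hS).2
    have h1 := Pool.Agent.Helper285.Lines.le_F_of S
    rw [T_eq_L, hc] at h1
    have : M m n = L S := hL
    omega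

/-- The recursion in terms of `F`. -/
theorem F_rec {d e n : ℕ} (he : 50 * e ≤ 19 * 3 ^ d) (hn : d < n) :
    F n (3 ^ d + e) = (3 ^ d) ^ 2 + Pool.Agent.Helper285.Lines.G d e := by
  have hd1 : 1 ≤ 3 ^ d := Nat.one_le_pow _ _ (by norm_num)
  apply le_antisymm
  · exact (Pool.Agent.Helper285.Lines.Q_all (3 ^ d + e)).2 d e n rfl he
  · obtain ⟨p, q, h1, -, h3⟩ := Pool.Agent.Helper285.Lines.exists_G d e
    have h4 := Pool.Agent.Helper285.Lines.F_build (n := d) (p := p) (q := q) (by omega) (by omega)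
    have h5 := Pool.Agent.Helper285.Lines.F_mono (show d + 1 ≤ n from hn) (3 ^ d + p + q)
    have h6 : 3 ^ d + p + q = 3 ^ d + e := by omega
    rw [h6] at h4 h5
    rw [h3]
    omega

theorem G_eq_M {d e : ℕ} (he : e ≤ 3 ^ d) : Pool.Agent.Helper285.Lines.G d e =
    e + 6 * (range (e + 1)).sup (fun p => p * (e - p) + M p d + M (e - p) d) := by
  apply le_antisymm
  · obtain ⟨p, q, h1, -, h3⟩ := Pool.Agent.Helper285.Lines.exists_G d e
    have h4 : p * (e - p) + M p d + M (e - p) d ≤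
        (range (e + 1)).sup (fun p => p * (e - p) + M p d + M (e - p) d) :=
      le_sup (f := fun p => p * (e - p) + M p d + M (e - p) d) (mem_range.mpr (by omega))
    have h5 : e - p = q := by omega
    rw [h5] at h4
    rw [h3, F_eq_M (show p ≤ 3 ^ d by omega), F_eq_M (show q ≤ 3 ^ d by omega)]
    omega
  · obtain ⟨p, hp, h⟩ := exists_mem_eq_sup (range (e + 1)) ⟨0, by simp⟩
      (fun p => p * (e - p) + M p d + M (e - p) d)
    rw [h]
    rw [mem_range] at hp
    obtain ⟨q, hq⟩ : ∃ q, p + q = e := ⟨e - p, by omega⟩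
    have h2 := Pool.Agent.Helper285.Lines.le_G (d := d) hq
    rw [F_eq_M (show p ≤ 3 ^ d by omega), F_eq_M (show q ≤ 3 ^ d by omega)] at h2
    have h5 : e - p = q := by omega
    simp only [h5]
    omega

theorem F_full (d : ℕ) : F d (3 ^ d) = (3 ^ d) ^ 2 := by
  apply le_antisymm (Pool.Agent.Helper285.Lines.F_le_sq d _)
  have h4 := Pool.Agent.Helper285.Lines.F_build (n := d) (p := 0) (q := 0) (Nat.zero_le _) (Nat.zero_le _)
  have h5 := (Pool.Agent.Helper285.Lines.Q_all (3 ^ d)).1 (d + 1) d le_rfl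
  simp only [add_zero] at h4
  omega

theorem M_eq_zero {m n : ℕ} (h : 3 ^ n < m) : M m n = 0 := by
  unfold M
  rw [powersetCard_eq_empty.2 (by rw [card_univ]; simpa [ZMod.card] using h)]
  rfl

/-- The sharp bound in terms of `F`. -/
theorem F_sharp {d e : ℕ} (he : 2 * e ≤ 3 ^ d) (n : ℕ) :
    F n (3 ^ d + e) ≤ (3 ^ d) ^ 2 + 2 * e ^ 2 := by
  have h1 := (Pool.Agent.Helper285.Lines.Q_all (3 ^ d + e)).1 n (d + 1) (by rw [pow_succ]; omega)
  exact h1.trans (Pool.Agent.Helper285.Lines.lemB he)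

/-- **Main theorem.** -/
theorem result :
    (∀ m : ℕ, 1 ≤ m → ∀ n : ℕ, Nat.clog 3 m ≤ n → M m n = M m (Nat.clog 3 m)) ∧
    (∀ d e n : ℕ, 50 * e ≤ 19 * 3 ^ d → d < n →
      M (3 ^ d + e) n =
        M (3 ^ d) d + (range (e + 1)).sup (fun p => p * (e - p) + M p d + M (e - p) d)) ∧
    (∀ d e n : ℕ, 2 * e ≤ 3 ^ d → 6 * M (3 ^ d + e) n + 3 ^ d + e ≤ 9 ^ d + 2 * e ^ 2) ∧
    (∀ d j n : ℕ, j + 2 ≤ d → d < n →
      6 * M (3 ^ d + 2 * 3 ^ j) n + 3 ^ d + 2 * 3 ^ j = 9 ^ d + 2 * (2 * 3 ^ j) ^ 2) := by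
  have h9 : ∀ d : ℕ, 9 ^ d = (3 ^ d) ^ 2 := fun d => by
    rw [← pow_mul, mul_comm d 2, pow_mul]; norm_num
  refine ⟨?_, ?_, ?_, ?_⟩
  · intro m _ n hn
    have h1 : m ≤ 3 ^ Nat.clog 3 m := Nat.le_pow_clog (by norm_num) m
    have h2 : m ≤ 3 ^ n := h1.trans (Nat.pow_le_pow_right (by norm_num) hn)
    have h3 := (Pool.Agent.Helper285.Lines.Q_all m).1 n (Nat.clog 3 m) h1
    have h4 := Pool.Agent.Helper285.Lines.F_mono hn m
    rw [F_eq_M h1, F_eq_M h2] at h3 h4
    omega
  · intro d e n he hn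
    have h1 := F_rec he hn
    have hle : 3 ^ (d + 1) ≤ 3 ^ n := Nat.pow_le_pow_right (by norm_num) hn
    have h3 : 3 ^ (d + 1) = 3 * 3 ^ d := by ring
    rw [F_eq_M (show 3 ^ d + e ≤ 3 ^ n by omega), G_eq_M (show e ≤ 3 ^ d by omega)] at h1
    have h2 := F_full d
    rw [F_eq_M le_rfl] at h2
    omega
  · intro d e n he
    rw [h9]
    rcases le_or_gt (3 ^ d + e) (3 ^ n) with h | h
    · have h1 := F_sharp he n
      rw [F_eq_M h] at h1
      omega
    · rw [M_eq_zero h]
      have h1 : 3 ^ d ≤ (3 ^ d) ^ 2 := Nat.le_self_pow (by norm_num) _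
      have h2 : e ≤ e ^ 2 := Nat.le_self_pow (by norm_num) _
      omega
  · intro d j n hj hn
    rw [h9]
    have hjd : 9 * 3 ^ j ≤ 3 ^ d := by
      calc 9 * 3 ^ j = 3 ^ (j + 2) := by ring
        _ ≤ 3 ^ d := Nat.pow_le_pow_right (by norm_num) hj
    have hle : 3 ^ (d + 1) ≤ 3 ^ n := Nat.pow_le_pow_right (by norm_num) hn
    have h3 : 3 ^ (d + 1) = 3 * 3 ^ d := by ring
    have h1 := F_sharp (show 2 * (2 * 3 ^ j) ≤ 3 ^ d by omega) n
    have h2 := F_rec (show 50 * (2 * 3 ^ j) ≤ 19 * 3 ^ d by omega) hn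
    have h4 := Pool.Agent.Helper285.Lines.le_G (d := d) (show 3 ^ j + 3 ^ j = 2 * 3 ^ j by ring)
    have h5 : F d (3 ^ j) = (3 ^ j) ^ 2 := by
      apply le_antisymm (Pool.Agent.Helper285.Lines.F_le_sq d _)
      rw [← F_full j]
      exact Pool.Agent.Helper285.Lines.F_mono (by omega) _
    rw [h5] at h4
    rw [F_eq_M (show 3 ^ d + 2 * 3 ^ j ≤ 3 ^ n by omega)] at h1 h2
    have h6 : 2 * (2 * 3 ^ j) ^ 2 = 6 * (3 ^ j * 3 ^ j) + (3 ^ j) ^ 2 + (3 ^ j) ^ 2 := by ring
    omega

end Pool.Agent.Results.MP_757c6b_co.LinesRecursion
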